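import Pool.Agent.Lib.MP_039f74_co.Entropy

/-!
The lower bound for the edge boundary, by induction on the set of generators.
-/

namespace Pool.Agent.Lib.MP_039f74_co

open Finset Real AddSubgroup

/-- Adjoining an element a multiple of which lies in the subgroup. -/
lemma card_sup_le {Q : Type*} [AddCommGroup Q] [Finite Q] (K : AddSubgroup Q) (u : Q) {t : ℕ}
    (t0 : 0 < t) (ht : t • u ∈ K) : Nat.card (K ⊔ zmultiples u : AddSubgroup Q) ≤ Nat.card K * t := by
  have : Nat.card K * t = Nat.card (K × Fin t) := by simp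
  rw [this]
  refine Nat.card_le_card_of_surjective (fun p : K × Fin t => (⟨p.1 + (p.2 : ℕ) • u,
    add_mem (mem_sup_left p.1.2) (mem_sup_right (nsmul_mem (mem_zmultiples u) _))⟩ :
      (K ⊔ zmultiples u : AddSubgroup Q))) ?_
  rintro ⟨y, hy⟩
  obtain ⟨k, hk, z, hz, rfl⟩ := mem_sup.1 hy
  obtain ⟨z, rfl⟩ := mem_zmultiples_iff.1 hz
  have t1 : (0 : ℤ) < t := by exact_mod_cast t0
  have a := Int.emod_nonneg z t1.ne'
  have b := Int.emod_lt_of_pos z t1
  refine ⟨(⟨k + (z / t) • t • u, add_mem hk (zsmul_mem ht _)⟩, ⟨(z % t).toNat, by omega⟩),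
    Subtype.ext ?_⟩
  simp only
  rw [add_assoc, ← natCast_zsmul, ← natCast_zsmul, smul_smul, ← add_smul, Int.toNat_of_nonneg a,
    Int.ediv_mul_add_emod]

variable {G : Type*} [AddCommGroup G] [DecidableEq G]

/-- The number of elements of `A` that leave `A` in direction `s`. -/
def ex (A : Finset G) (s : G) : ℕ := #{a ∈ A | a + s ∉ A}

lemma boundary_eq (A S : Finset G) :
    #((A ×ˢ S).filter fun p => p.1 + p.2 ∉ A) = ∑ s ∈ S, ex A s := by
  simp only [ex, card_filter]
  rw [sum_product_right]

/-- The sizes of the fibres oscillate by at most the number of leaving elements. -/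
lemma osc_le {X : Type*} [AddCommGroup X] [DecidableEq X] [Finite X] (φ : G →+ X) (A : Finset G)
    (s : G) {c c' : X} (h : c' - c ∈ zmultiples (φ s)) :
    (#{a ∈ A | φ a = c} : ℝ) - #{a ∈ A | φ a = c'} ≤ ex A s := by
  obtain ⟨k, hk, e⟩ := mem_image.1 (mem_zmultiples_iff_mem_range_addOrderOf.1 h)
  rw [mem_range] at hk
  set F : ℕ → ℝ := fun j => #{a ∈ A | φ a = c + j • φ s} with hF
  have step : ∀ j, F j - F (j + 1) ≤ #{a ∈ {a ∈ A | a + s ∉ A} | φ a = c + j • φ s} := fun j => by
    have h1 := card_filter_add_card_filter_not (s := {a ∈ A | φ a = c + j • φ s})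
      (fun a => a + s ∈ A)
    have h2 : #{a ∈ {a ∈ A | φ a = c + j • φ s} | a + s ∈ A}
        ≤ #{a ∈ A | φ a = c + (j + 1) • φ s} :=
      card_le_card_of_injOn (· + s) (fun a ha => by
        simp only [coe_filter, mem_filter, Set.mem_ofPred_eq] at ha ⊢
        exact ⟨ha.2, by rw [map_add, ha.1.2, succ_nsmul, add_assoc]⟩)
        fun a _ b _ e => add_right_cancel e
    rw [filter_comm]
    simp only [hF]
    have h3 : #{a ∈ A | φ a = c + j • φ s} ≤ #{a ∈ {a ∈ A | φ a = c + j • φ s} | a + s ∉ A}
      + #{a ∈ A | φ a = c + (j + 1) • φ s} := by omega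
    rw [sub_le_iff_le_add]
    exact_mod_cast h3
  have tel := sum_range_sub' F k
  have e0 : F 0 = #{a ∈ A | φ a = c} := by simp [hF]
  have e1 : F k = #{a ∈ A | φ a = c'} := by simp only [hF, e, add_sub_cancel]
  rw [← e0, ← e1, ← tel]
  refine (sum_le_sum fun j _ => step j).trans ?_
  rw [← Nat.cast_sum, Nat.cast_le, ex, ← card_biUnion]
  · exact card_le_card (biUnion_subset.2 fun j _ => filter_subset _ _)
  · intro i hi j hj hij
    refine disjoint_filter.2 fun a _ h1 h2 => hij ?_
    exact nsmul_injOn_Iio_addOrderOf ((mem_range.1 hi).trans hk) ((mem_range.1 hj).trans hk)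
      (add_left_cancel (h1.symm.trans h2))

theorem bound [Finite G] {Q : Type*} [AddCommGroup Q] [Finite Q] (f : G →+ Q) {m : ℕ} (hm : 2 ≤ m)
    (hQ : ∀ q : Q, m • q = 0) {β : ℝ} (β0 : 0 ≤ β) (β4 : β ≤ log 4) (βm : β ≤ log m)
    (S : Finset G) : ∀ A : Finset G, (∀ x ∈ A, ∀ y ∈ A, x - y ∈ AddSubgroup.closure (S : Set G)) →
      #A * (β * (log (Nat.card ((AddSubgroup.closure (S : Set G)).map f)) / log m))
        ≤ β * ∑ s ∈ S, (ex A s : ℝ) + #A * log #A := by
  classical
  have L0 : 0 < log m := log_pos (by exact_mod_cast hm)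
  induction S using Finset.induction_on with
  | empty =>
    intro A _
    simp only [coe_empty, AddSubgroup.closure_empty, AddSubgroup.map_bot, AddSubgroup.card_bot,
      Nat.cast_one, log_one, zero_div,
      mul_zero, sum_empty, zero_add]
    exact mul_nonneg (Nat.cast_nonneg _) (log_natCast_nonneg _)
  | insert s S hs ih =>
    intro A hA
    rcases A.eq_empty_or_nonempty with rfl | ⟨x₀, hx₀⟩
    · simp [ex]
    set H := AddSubgroup.closure (S : Set G) with hH
    set φ := QuotientAddGroup.mk' H with hφ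
    have : Fintype (G ⧸ H) := Fintype.ofFinite _
    set T : Finset (G ⧸ H) := {c | c - φ x₀ ∈ zmultiples (φ s)} with hT
    set r := addOrderOf (φ s) with hr
    have r0 : 0 < r := addOrderOf_pos _
    have cT : #T = r := by
      rw [hr, ← Nat.card_zmultiples, ← Nat.card_eq_finsetCard]
      refine Nat.card_congr ((Equiv.subRight (φ x₀)).subtypeEquiv fun c => ?_)
      simp [hT]
    have mem : ∀ x ∈ A, φ x ∈ T := fun x hx => by
      have : AddSubgroup.closure ((insert s S : Finset G) : Set G) ≤ (zmultiples (φ s)).comap φ := by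
        rw [AddSubgroup.closure_le, coe_insert]
        rintro y (rfl | hy)
        · exact mem_zmultiples _
        · have : φ y = 0 := (QuotientAddGroup.eq_zero_iff y).2 (AddSubgroup.subset_closure hy)
          simp [this]
      simpa [hT] using this (hA x hx x₀ hx₀)
    set B : G ⧸ H → Finset G := fun c => {a ∈ A | φ a = c} with hB
    have sA : ∑ c ∈ T, (#(B c) : ℝ) = #A := by
      rw [card_eq_sum_card_fiberwise (f := φ) (t := T) mem, Nat.cast_sum]
    have sE : ∀ t ∈ S, (ex A t : ℝ) = ∑ c ∈ T, (ex (B c) t : ℝ) := fun t ht => by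
      have z : φ t = 0 := (QuotientAddGroup.eq_zero_iff t).2 (AddSubgroup.subset_closure ht)
      rw [ex, card_eq_sum_card_fiberwise (f := φ) (t := T)
        fun a ha => mem a (mem_filter.1 ha).1, Nat.cast_sum]
      refine sum_congr rfl fun c _ => ?_
      rw [ex]
      congr 2
      ext a
      simp only [hB, mem_filter, map_add, z, add_zero]
      tauto
    have IH := sum_le_sum fun c (_ : c ∈ T) => ih (B c) fun x hx y hy =>
      (QuotientAddGroup.eq_zero_iff _).1 (show φ (x - y) = 0 by
        rw [map_sub, (mem_filter.1 hx).2, (mem_filter.1 hy).2, sub_self])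
    rw [← sum_mul, sA, sum_add_distrib, ← mul_sum, sum_comm, ← sum_congr rfl sE] at IH
    have A0 : (0 : ℝ) < #A := by exact_mod_cast card_pos.2 ⟨x₀, hx₀⟩
    set w : ℝ := min (log r) (log m) with hw
    have O := ent_osc (E := ex A s) (c := β * (w / log m)) (fun c _ => Nat.cast_nonneg _) sA A0
      (fun c hc c' hc' => osc_le φ A s (by
        have := sub_mem (mem_filter.1 hc').2 (mem_filter.1 hc).2
        rwa [sub_sub_sub_cancel_right] at this)) β0 β4
      (mul_le_of_le_one_right β0 ((div_le_one L0).2 (min_le_right _ _))) (by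
        have w0 : 0 ≤ w := le_min (log_natCast_nonneg _) L0.le
        rw [cT, ← mul_div_assoc, div_le_iff₀ L0, mul_comm]
        exact mul_le_mul (min_le_left _ _) βm β0 (log_natCast_nonneg _))
    have K : (AddSubgroup.closure ((insert s S : Finset G) : Set G)).map f
        = H.map f ⊔ zmultiples (f s) := by
      rw [coe_insert, Set.insert_eq, AddSubgroup.closure_union, sup_comm, AddSubgroup.map_sup,
        ← zmultiples_eq_closure,
        AddMonoidHom.map_zmultiples]
    have C : ∀ t : ℕ, 0 < t → t • f s ∈ H.map f →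
        log (Nat.card (H.map f ⊔ zmultiples (f s) : AddSubgroup Q))
          ≤ log (Nat.card (H.map f)) + log t := fun t t0 ht => by
      rw [← log_mul (by exact_mod_cast Nat.card_pos.ne') (by exact_mod_cast t0.ne')]
      exact log_le_log (by exact_mod_cast Nat.card_pos) (by exact_mod_cast card_sup_le _ _ t0 ht)
    have C1 := C r r0 ⟨r • s, (QuotientAddGroup.eq_zero_iff _).1
      (show φ (r • s) = 0 by rw [map_nsmul, addOrderOf_nsmul_eq_zero]), map_nsmul _ _ _⟩
    have C2 := C m (by omega) (by rw [hQ]; exact zero_mem _)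
    have C3 : log (Nat.card (H.map f ⊔ zmultiples (f s) : AddSubgroup Q))
        ≤ log (Nat.card (H.map f)) + w := by
      rw [hw, ← min_add_add_left]; exact le_min C1 C2
    rw [K, sum_insert hs]
    have := mul_le_mul_of_nonneg_left (mul_le_mul_of_nonneg_left
      (div_le_div_of_nonneg_right C3 L0.le) β0) A0.le
    rw [add_div] at this
    nlinarith

end Pool.Agent.Lib.MP_039f74_co
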