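import Mathlib

/-!
An entropy inequality for finite families of non-negative numbers with small oscillation.
-/

namespace Pool.Agent.Lib.MP_039f74_co

open Finset Real

lemma log_four : log 4 = 2 * log 2 := by
  rw [show (4 : ℝ) = 2 ^ 2 by norm_num, log_pow]; norm_num

lemma negMulLog_small {x : ℝ} (h0 : 0 ≤ x) (h1 : x ≤ 1 / 2) :
    log 4 * (x * (1 - x)) ≤ negMulLog x := by
  rcases h0.eq_or_lt with rfl | h0
  · simp
  have k := log_le_sub_one_of_pos (show 0 < 2 * x by positivity)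
  rw [log_mul two_ne_zero h0.ne'] at k
  have l : log 2 ≤ 1 := by linarith [log_le_sub_one_of_pos (show (0 : ℝ) < 2 by norm_num)]
  have : log 4 * (1 - x) ≤ -log x := by
    rw [log_four]; nlinarith [mul_nonneg (sub_nonneg.2 l) (show 0 ≤ 1 - 2 * x by linarith)]
  rw [negMulLog]
  nlinarith [mul_le_mul_of_nonneg_left this h0.le]

lemma binEntropy_big {y : ℝ} (h0 : 1 / 2 ≤ y) (h1 : y ≤ 1) : log 4 * (1 - y) ≤ binEntropy y := by
  have k := strictConcave_binEntropy.concaveOn.2 (show (2⁻¹ : ℝ) ∈ Set.Icc 0 1 by norm_num)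
    (show (1 : ℝ) ∈ Set.Icc 0 1 by norm_num) (show 0 ≤ 2 * (1 - y) by linarith)
    (show 0 ≤ 2 * y - 1 by linarith) (by ring)
  rw [binEntropy_two_inv, binEntropy_one, smul_eq_mul, smul_eq_mul, smul_eq_mul, smul_eq_mul,
    show 2 * (1 - y) * 2⁻¹ + (2 * y - 1) * 1 = y by ring] at k
  rw [log_four]; linarith

/-- The entropy of a distribution whose atoms are at most `M`. -/
lemma ent_atoms {ι : Type*} [DecidableEq ι] {T : Finset ι} {ν : ι → ℝ} {M : ℝ}
    (h0 : ∀ i ∈ T, 0 ≤ ν i) (h1 : ∑ i ∈ T, ν i = 1) (hM : ∀ i ∈ T, ν i ≤ M) :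
    log 4 * (1 - M) ≤ ∑ i ∈ T, negMulLog (ν i) := by
  have l4 : 0 ≤ log 4 := log_nonneg (by norm_num)
  by_cases h : ∀ i ∈ T, ν i ≤ 1 / 2
  · calc log 4 * (1 - M) = ∑ i ∈ T, log 4 * (ν i * (1 - M)) := by
          rw [← mul_sum, ← sum_mul, h1, one_mul]
      _ ≤ _ := sum_le_sum fun i hi => le_trans (mul_le_mul_of_nonneg_left
          (mul_le_mul_of_nonneg_left (by linarith [hM i hi]) (h0 i hi)) l4)
          (negMulLog_small (h0 i hi) (h i hi))
  push Not at h
  obtain ⟨j, hj, hy⟩ := h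
  have e : ∑ i ∈ T.erase j, ν i = 1 - ν j := by rw [← h1, ← add_sum_erase T ν hj]; ring
  have le : ∀ i ∈ T.erase j, ν i ≤ 1 - ν j := fun i hi =>
    e ▸ single_le_sum (fun k hk => h0 k (mem_of_mem_erase hk)) hi
  have y1 : ν j ≤ 1 := h1 ▸ single_le_sum h0 hj
  have k : negMulLog (1 - ν j) ≤ ∑ i ∈ T.erase j, negMulLog (ν i) := by
    rw [negMulLog, neg_mul, ← mul_neg]
    nth_rewrite 1 [← e]
    rw [sum_mul]
    refine sum_le_sum fun i hi => ?_
    rcases (h0 i (mem_of_mem_erase hi)).eq_or_lt with z | z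
    · simp [← z]
    · rw [negMulLog, neg_mul, ← mul_neg]
      exact mul_le_mul_of_nonneg_left (neg_le_neg (log_le_log z (le i hi))) z.le
  have b := binEntropy_big hy.le y1
  rw [binEntropy_eq_negMulLog_add_negMulLog_one_sub] at b
  rw [← add_sum_erase T _ hj]
  nlinarith [mul_le_mul_of_nonneg_left (hM j hj) l4]

/-- Oscillation plus entropy is bounded from below. -/
lemma ent_osc {ι : Type*} [DecidableEq ι] {T : Finset ι} {a : ι → ℝ} {N E β c : ℝ}
    (h0 : ∀ i ∈ T, 0 ≤ a i) (hN : ∑ i ∈ T, a i = N) (N0 : 0 < N)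
    (hE : ∀ i ∈ T, ∀ k ∈ T, a i - a k ≤ E) (β0 : 0 ≤ β) (β4 : β ≤ log 4) (c1 : c ≤ β)
    (c2 : c ≤ log T.card) :
    N * c + ∑ i ∈ T, a i * log (a i) ≤ β * E + N * log N := by
  have ne : T.Nonempty := by
    rcases T.eq_empty_or_nonempty with rfl | h
    · simp at hN; linarith
    · exact h
  obtain ⟨k, hk, hmin⟩ := exists_min_image T a ne
  set r : ℝ := (T.card : ℝ) with hr
  have r0 : 0 < r := by rw [hr]; exact_mod_cast ne.card_pos
  set ε := a k
  have ε0 : 0 ≤ ε := h0 k hk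
  have E0 : 0 ≤ E := by simpa using hE k hk k hk
  have s : ∑ i ∈ T, (a i - ε) = N - r * ε := by
    rw [sum_sub_distrib, hN, sum_const, nsmul_eq_mul]
  have D0 : 0 ≤ N - r * ε := s ▸ sum_nonneg fun i hi => sub_nonneg.2 (hmin i hi)
  have H : ∑ i ∈ T, N * negMulLog (a i / N) = N * log N - ∑ i ∈ T, a i * log (a i) := by
    nth_rewrite 3 [← hN]
    rw [sum_mul, ← sum_sub_distrib]
    refine sum_congr rfl fun i hi => ?_
    rcases (h0 i hi).eq_or_lt with z | z
    · simp [← z]
    · rw [negMulLog, log_div z.ne' N0.ne']; field_simp; ring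
  have u : r * negMulLog (1 / r) = log r := by
    rw [negMulLog, one_div, log_inv]; field_simp
  suffices N * c ≤ β * E + ∑ i ∈ T, N * negMulLog (a i / N) by linarith
  rcases D0.eq_or_lt with D | Dp
  · have z := (sum_eq_zero_iff_of_nonneg fun i hi => sub_nonneg.2 (hmin i hi)).1 (s.trans D.symm)
    have : ∑ i ∈ T, N * negMulLog (a i / N) = N * log r := by
      rw [← u, sum_congr rfl fun i hi => (by
        rw [sub_eq_zero.1 (z i hi), show ε / N = 1 / r by field_simp; linarith] :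
          N * negMulLog (a i / N) = N * negMulLog (1 / r)), sum_const, nsmul_eq_mul]
      ring
    rw [this]
    nlinarith [mul_nonneg β0 E0, mul_le_mul_of_nonneg_left c2 N0.le]
  set D := N - r * ε with hD
  have n0 : ∀ i ∈ T, 0 ≤ (a i - ε) / D := fun i hi => div_nonneg (sub_nonneg.2 (hmin i hi)) Dp.le
  have n1 : ∑ i ∈ T, (a i - ε) / D = 1 := by rw [← sum_div, s, div_self Dp.ne']
  have A := ent_atoms (M := E / D) n0 n1 fun i hi =>
    div_le_div_of_nonneg_right (hE i hi k hk) Dp.le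
  have P : 0 ≤ ∑ i ∈ T, negMulLog ((a i - ε) / D) := sum_nonneg fun i hi =>
    negMulLog_nonneg (n0 i hi) (n1 ▸ single_le_sum n0 hi)
  have J : ∑ i ∈ T, (r * ε * negMulLog (1 / r) + D * negMulLog ((a i - ε) / D))
      ≤ ∑ i ∈ T, N * negMulLog (a i / N) := sum_le_sum fun i hi => by
    have q := concaveOn_negMulLog.2 (show 1 / r ∈ Set.Ici 0 from (by positivity : 0 ≤ 1 / r))
      (show (a i - ε) / D ∈ Set.Ici 0 from n0 i hi) (show 0 ≤ r * ε / N by positivity)
      (show 0 ≤ D / N by positivity) (by rw [hD]; field_simp; ring)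
    simp only [smul_eq_mul] at q
    rw [show r * ε / N * (1 / r) + D / N * ((a i - ε) / D) = a i / N by field_simp; ring] at q
    have := mul_le_mul_of_nonneg_left q N0.le
    refine le_trans (le_of_eq ?_) this
    field_simp
  rw [sum_add_distrib, sum_const, nsmul_eq_mul, ← mul_sum, ← hr] at J
  generalize ∑ i ∈ T, negMulLog ((a i - ε) / D) = X at *
  have B : D * β ≤ β * E + D * X := by
    by_cases k : E ≤ D
    · have : β * (1 - E / D) ≤ X := le_trans (mul_le_mul_of_nonneg_right β4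
        (sub_nonneg.2 ((div_le_one Dp).2 k))) A
      have := mul_le_mul_of_nonneg_left this Dp.le
      rw [show D * (β * (1 - E / D)) = D * β - β * E by field_simp] at this
      linarith
    · nlinarith [mul_nonneg Dp.le P, mul_le_mul_of_nonneg_left (not_le.1 k).le β0]
  have e : r * (r * ε * negMulLog (1 / r)) = r * ε * log r := by rw [← u]; ring
  have : N * c = r * ε * c + D * c := by rw [hD]; ring
  nlinarith [mul_le_mul_of_nonneg_left c2 (mul_nonneg r0.le ε0), mul_le_mul_of_nonneg_left c1 Dp.le]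

end Pool.Agent.Lib.MP_039f74_co
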