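import Mathlib

/-!
The groups `C_m^j × C_m^k × C_(m d)` with a generating set whose least order is `d`.
-/

namespace Pool.Agent.Lib.MP_039f74_co

open Finset

/-- The witness group `C_m^j × C_m^k × C_(m d)`. -/
abbrev W (m j k d : ℕ) : Type := (Fin j → ZMod m) × (Fin k → ZMod m) × ZMod (m * d)

variable (m j k d : ℕ)

lemma exists_surj (hm : 2 ≤ m) :
    ∃ f : W m j k d →+ (Fin (j + k + 1) → ZMod m), Function.Surjective f := by
  have : Fact (1 < m) := ⟨hm⟩
  let f : W m j k d →+ (Fin j → ZMod m) × (Fin k → ZMod m) × ZMod m :=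
    AddMonoidHom.prodMap (AddMonoidHom.id _) (AddMonoidHom.prodMap (AddMonoidHom.id _)
      (ZMod.castHom (dvd_mul_right m d) (ZMod m)).toAddMonoidHom)
  have hf : Function.Surjective f := by
    rintro ⟨x, y, z⟩
    obtain ⟨w, hw⟩ := ZMod.castHom_surjective (n := m * d) (dvd_mul_right m d) z
    exact ⟨(x, y, w), by simp [f, ← hw]⟩
  let e := LinearEquiv.ofFinrankEq (R := ZMod m) ((Fin j → ZMod m) × (Fin k → ZMod m) × ZMod m)
    (Fin (j + k + 1) → ZMod m) (by simp [Module.finrank_prod, add_assoc])
  exact ⟨e.toAddEquiv.toAddMonoidHom.comp f, e.surjective.comp hf⟩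

/-- A smallest generating set. -/
def gens0 : Finset (W m j k d) :=
  ({(0, 0, 1)} : Finset (W m j k d)) ∪
    (univ.image fun i : Fin j => ((Pi.single i 1, 0, 1) : W m j k d)) ∪
    (univ.image fun i : Fin k => ((0, Pi.single i 1, 1) : W m j k d))

/-- The generating set: `(0,0,m)`, `(0,0,1)`, the `(e_i,0,1)` and the `(0,e_i,1)`. -/
def gens : Finset (W m j k d) := insert (0, 0, (m : ZMod (m * d))) (gens0 m j k d)

lemma closure_gens0 [NeZero m] [NeZero (m * d)] :
    AddSubgroup.closure ((gens0 m j k d : Finset (W m j k d)) : Set (W m j k d)) = ⊤ := by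
  set H := AddSubgroup.closure ((gens0 m j k d : Finset (W m j k d)) : Set (W m j k d)) with hH
  have h1 : ((0, 0, 1) : W m j k d) ∈ H := AddSubgroup.subset_closure (by simp [gens0])
  have hj : ∀ i : Fin j, ((Pi.single i 1, 0, 0) : W m j k d) ∈ H := by
    intro i
    have h : ((Pi.single i 1, 0, 1) : W m j k d) ∈ H :=
      AddSubgroup.subset_closure (by simp [gens0])
    have e : ((Pi.single i 1, 0, 1) : W m j k d) - (0, 0, 1) = (Pi.single i 1, 0, 0) := by
      simp [Prod.ext_iff]
    exact e ▸ H.sub_mem h h1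
  have hk : ∀ i : Fin k, ((0, Pi.single i 1, 0) : W m j k d) ∈ H := by
    intro i
    have h : ((0, Pi.single i 1, 1) : W m j k d) ∈ H :=
      AddSubgroup.subset_closure (by simp [gens0])
    simpa using H.sub_mem h h1
  have hz : ∀ z : ZMod (m * d), ((0, 0, z) : W m j k d) ∈ H := by
    intro z
    have := H.nsmul_mem h1 z.val
    simpa using this
  have hx : ∀ x : Fin j → ZMod m, ((x, 0, 0) : W m j k d) ∈ H := by
    intro x
    induction x using Pi.single_induction with
    | zero => exact H.zero_mem
    | add f g hf hg => simpa using H.add_mem hf hg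
    | single i c =>
      have := H.nsmul_mem (hj i) c.val
      have e : c.val • (Pi.single i (1 : ZMod m) : Fin j → ZMod m) = Pi.single i c := by
        rw [← Pi.single_smul']; simp
      simpa [e] using this
  have hy : ∀ y : Fin k → ZMod m, ((0, y, 0) : W m j k d) ∈ H := by
    intro y
    induction y using Pi.single_induction with
    | zero => exact H.zero_mem
    | add f g hf hg => simpa using H.add_mem hf hg
    | single i c =>
      have := H.nsmul_mem (hk i) c.val
      have e : c.val • (Pi.single i (1 : ZMod m) : Fin k → ZMod m) = Pi.single i c := by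
        rw [← Pi.single_smul']; simp
      simpa [e] using this
  rw [eq_top_iff]
  rintro ⟨x, y, z⟩ -
  simpa using H.add_mem (H.add_mem (hx x) (hy y)) (hz z)

lemma closure_gens [NeZero m] [NeZero (m * d)] :
    AddSubgroup.closure ((gens m j k d : Finset (W m j k d)) : Set (W m j k d)) = ⊤ :=
  eq_top_iff.2 ((closure_gens0 m j k d).ge.trans
    (AddSubgroup.closure_mono (coe_subset.2 (subset_insert _ _))))

lemma rank_eq [NeZero m] [NeZero (m * d)] (hm : 2 ≤ m) :
    AddGroup.rank (W m j k d) = j + k + 1 := by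
  refine le_antisymm ((AddGroup.rank_le (closure_gens0 m j k d)).trans ?_) ?_
  · refine (card_union_le _ _).trans ((add_le_add (card_union_le _ _) card_image_le).trans ?_)
    have := card_image_le (s := univ)
      (f := fun i : Fin j => ((Pi.single i 1, 0, 1) : W m j k d))
    simp only [card_singleton, card_univ, Fintype.card_fin] at this ⊢
    omega
  obtain ⟨f, hf⟩ := exists_surj m j k d hm
  refine le_trans ?_ (AddGroup.rank_le_of_surjective f hf)
  have h3 := card_dvd_exponent_nsmul_rank' (Fin (j + k + 1) → ZMod m) (n := m)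
    fun g => funext fun i => by simp
  rw [Nat.card_fun, Nat.card_zmod, Nat.card_fin] at h3
  exact (Nat.pow_dvd_pow_iff_le_right hm).mp h3

lemma addOrderOf_m (hm : 2 ≤ m) : addOrderOf ((m : ℕ) : ZMod (m * d)) = d := by
  rw [ZMod.addOrderOf_coe' (m * d) (a := m) (by omega), Nat.gcd_mul_right_left,
    Nat.mul_div_cancel_left _ (by omega)]

lemma isLeast_gens [NeZero m] [NeZero (m * d)] (hm : 2 ≤ m) :
    IsLeast (addOrderOf '' ((gens m j k d : Finset (W m j k d)) : Set (W m j k d))) d := by
  constructor
  · refine ⟨(0, 0, (m : ZMod (m * d))), by simp [gens], ?_⟩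
    rw [Prod.addOrderOf, Prod.addOrderOf, addOrderOf_m m d hm]
    simp
  · rintro _ ⟨s, hs, rfl⟩
    have hpos : 0 < addOrderOf s := addOrderOf_pos s
    have hdvd : addOrderOf s.2.2 ∣ addOrderOf s :=
      (addOrderOf_snd_dvd_addOrderOf (x := s.2)).trans (addOrderOf_snd_dvd_addOrderOf (x := s))
    have hcase : s.2.2 = (m : ZMod (m * d)) ∨ s.2.2 = 1 := by
      simp only [gens, gens0, coe_union, coe_insert, coe_singleton, coe_image, coe_univ,
        Set.image_univ, Set.mem_union, Set.mem_insert_iff, Set.mem_singleton_iff,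
        Set.mem_range] at hs
      rcases hs with rfl | (rfl | ⟨i, rfl⟩) | ⟨i, rfl⟩ <;> simp
    have hle := Nat.le_of_dvd hpos hdvd
    rcases hcase with h | h
    · rw [h, addOrderOf_m m d hm] at hle; exact hle
    · rw [h, ZMod.addOrderOf_one] at hle
      exact (Nat.le_mul_of_pos_left d (by omega)).trans hle

/-- The set `A = C_m^j × 0 × C_(m d)`. -/
def body [NeZero m] [NeZero (m * d)] : Finset (W m j k d) :=
  (univ : Finset (Fin j → ZMod m)) ×ˢ (({0} : Finset (Fin k → ZMod m)) ×ˢ
    (univ : Finset (ZMod (m * d))))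

lemma mem_body [NeZero m] [NeZero (m * d)] (g : W m j k d) : g ∈ body m j k d ↔ g.2.1 = 0 := by
  simp only [body, Finset.mem_product, mem_univ, mem_singleton, true_and, and_true]

lemma card_body [NeZero m] [NeZero (m * d)] : (body m j k d).card = m ^ (j + 1) * d := by
  simp [body, Finset.card_product, ZMod.card, pow_succ, mul_assoc]

lemma boundary_le [NeZero m] [NeZero (m * d)] :
    ((body m j k d ×ˢ gens m j k d).filter (fun p => p.1 + p.2 ∉ body m j k d)).card
      ≤ k * (body m j k d).card := by
  have hsub : (body m j k d ×ˢ gens m j k d).filter (fun p => p.1 + p.2 ∉ body m j k d) ⊆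
      body m j k d ×ˢ (univ.image fun i : Fin k => ((0, Pi.single i 1, 1) : W m j k d)) := by
    rintro ⟨a, s⟩ hp
    rw [Finset.mem_filter, Finset.mem_product] at hp
    obtain ⟨⟨ha, hs⟩, hn⟩ := hp
    rw [Finset.mem_product]
    refine ⟨ha, ?_⟩
    rw [mem_body] at ha hn
    simp only [gens, gens0, mem_union, mem_insert, mem_singleton] at hs
    rcases hs with rfl | (rfl | hs) | hs
    · exact absurd (by simpa using ha) hn
    · exact absurd (by simpa using ha) hn
    · obtain ⟨i, -, rfl⟩ := Finset.mem_image.mp hs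
      exact absurd (by simpa using ha) hn
    · exact hs
  refine (Finset.card_le_card hsub).trans ?_
  rw [Finset.card_product, mul_comm]
  refine Nat.mul_le_mul_right _ (Finset.card_image_le.trans ?_)
  simp

end Pool.Agent.Lib.MP_039f74_co
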